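import Mathlib

/-!
# Permutation groups with the Ramsey property
-/

set_option autoImplicit false

namespace Pool.Agent.H53.RG

/-- The permutation group `G` has the Ramsey property: for each colouring of the `n`-tuples with
finitely many colours and each finite set `F` there is `g ∈ G` such that the colour of `g x`
depends only on the orbit of the tuple `x`, for all `n`-tuples `x` of elements of `F`. -/
def RamseyGroup {V : Type} (G : Subgroup (Equiv.Perm V)) : Prop :=
  ∀ (n k : ℕ) (F : Finset V) (χ : (Fin n → V) → Fin k), ∃ g ∈ G, ∀ x y : Fin n → V,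
    (∀ i, x i ∈ F) → (∀ i, y i ∈ F) → (∃ γ ∈ G, ∀ i, γ (x i) = y i) →
    χ (fun i => g (x i)) = χ (fun i => g (y i))

/-- The relation `R` on `T` is a connected projective graph core: `T` is finite, `R` is symmetric
without loops, connected, not bipartite, and each homomorphism from the sixth power of `(T; R)`
to `(T; R)` is an automorphism of `(T; R)` applied to one of the coordinates. -/
structure ProjectiveCore {T : Type} (R : T → T → Prop) : Prop where
  fin : Finite T
  symm : ∀ s t, R s t → R t s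
  irr : ∀ t, ¬ R t t
  conn : ∀ s t, Relation.ReflTransGen R s t
  nonbip : ¬ ∃ c : T → Bool, ∀ s t, R s t → c s ≠ c t
  proj : ∀ f : (Fin 6 → T) → T, (∀ x y, (∀ i, R (x i) (y i)) → R (f x) (f y)) →
    ∃ (i : Fin 6) (α : T ≃ T), (∀ s t, R s t ↔ R (α s) (α t)) ∧ ∀ x, f x = α (x i)

/-- `O` is a family of orbits of the group `G` indexed by `T`, and for `R s t` there is an edge of
`E` between the orbits `O s` and `O t`. -/
structure OrbitCopy {V T : Type} (E : V → V → Prop) (G : Subgroup (Equiv.Perm V))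
    (R : T → T → Prop) (O : T → Set V) : Prop where
  ne : ∀ t, (O t).Nonempty
  inv : ∀ t, ∀ x ∈ O t, ∀ γ ∈ G, γ x ∈ O t
  trans : ∀ t, ∀ x ∈ O t, ∀ y ∈ O t, ∃ γ ∈ G, γ x = y
  adj : ∀ s t, R s t → ∃ x ∈ O s, ∃ y ∈ O t, E x y

/-- There is a walk of length `n` from `x` to `y`. -/
def Walk {V : Type} (E : V → V → Prop) : ℕ → V → V → Prop
  | 0, x, y => x = y
  | n + 1, x, y => ∃ z, E x z ∧ Walk E n z y

section RB

variable {V : Type} {G : Subgroup (Equiv.Perm V)}

theorem RamseyGroup.finite (hG : RamseyGroup G) {κ : Type} [Finite κ] (n : ℕ) (F : Finset V)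
    (χ : (Fin n → V) → κ) : ∃ g ∈ G, ∀ x y : Fin n → V,
      (∀ i, x i ∈ F) → (∀ i, y i ∈ F) → (∃ γ ∈ G, ∀ i, γ (x i) = y i) →
      χ (fun i => g (x i)) = χ (fun i => g (y i)) := by
  obtain ⟨k, ⟨e⟩⟩ := Finite.exists_equiv_fin κ
  obtain ⟨g, hg, h⟩ := hG n k F (fun x => e (χ x))
  exact ⟨g, hg, fun x y hx hy hxy => e.injective (h x y hx hy hxy)⟩

/-- The Ramsey property for vertices. -/
theorem RamseyGroup.one (hG : RamseyGroup G) {κ : Type} [Finite κ] (F : Finset V)
    (χ : V → κ) : ∃ g ∈ G, ∀ x ∈ F, ∀ y ∈ F, (∃ γ ∈ G, γ x = y) → χ (g x) = χ (g y) := by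
  obtain ⟨g, hg, h⟩ := hG.finite 1 F (fun x => χ (x 0))
  exact ⟨g, hg, fun x hx y hy ⟨γ, hγ, e⟩ => h (fun _ => x) (fun _ => y) (fun _ => hx)
    (fun _ => hy) ⟨γ, hγ, fun _ => e⟩⟩

end RB

section Limit

variable {ι κ : Type} [Finite κ]

theorem exists_lim (U : Ultrafilter ι) (f : ι → κ) : ∃ t, ∀ᶠ i in (U : Filter ι), f i = t := by
  have h : (⋃ t ∈ (Set.univ : Set κ), {i | f i = t}) ∈ U := by
    have : (⋃ t ∈ (Set.univ : Set κ), {i | f i = t}) = Set.univ := by
      ext i
      simp
    rw [this]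
    exact Filter.univ_mem
  rw [Ultrafilter.finite_biUnion_mem_iff Set.finite_univ] at h
  obtain ⟨t, _, ht⟩ := h
  exact ⟨t, ht⟩

/-- The limit along an ultrafilter. -/
noncomputable def ulim (U : Ultrafilter ι) (f : ι → κ) : κ := (exists_lim U f).choose

theorem ulim_spec (U : Ultrafilter ι) (f : ι → κ) : ∀ᶠ i in (U : Filter ι), f i = ulim U f :=
  (exists_lim U f).choose_spec

/-- An ultrafilter on the finite subsets which contains all cones. -/
noncomputable def cone (V : Type) : Ultrafilter (Finset V) := Ultrafilter.of Filter.atTop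

theorem cone_mem {V : Type} (F : Finset V) :
    ∀ᶠ F' in ((cone V : Ultrafilter (Finset V)) : Filter (Finset V)), F ⊆ F' :=
  Ultrafilter.of_le (Filter.atTop : Filter (Finset V)) (Filter.eventually_ge_atTop F)

end Limit

end Pool.Agent.H53.RG
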