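import Pool.Agent.H53.RG.Tree

/-!
# Components and walks
-/

set_option autoImplicit false

namespace Pool.Agent.H53.RG

variable {V T : Type} {E : V → V → Prop} {R : T → T → Prop} {G : Subgroup (Equiv.Perm V)}
  {O : T → Set V}

theorem inv_app {X : Type} (g : Equiv.Perm X) (x : X) : g⁻¹ (g x) = x := g.symm_apply_apply x

theorem app_inv {X : Type} (g : Equiv.Perm X) (x : X) : g (g⁻¹ x) = x := g.apply_symm_apply x

theorem rtg_symm (hs : ∀ x y, E x y → E y x) {x y : V} (h : Relation.ReflTransGen E x y) :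
    Relation.ReflTransGen E y x := by
  induction h with
  | refl => exact Relation.ReflTransGen.refl
  | tail _ hbc ih => exact Relation.ReflTransGen.head (hs _ _ hbc) ih

theorem rtg_map {g : V → V} (hg : ∀ x y, E x y → E (g x) (g y)) {x y : V}
    (h : Relation.ReflTransGen E x y) : Relation.ReflTransGen E (g x) (g y) := by
  induction h with
  | refl => exact Relation.ReflTransGen.refl
  | tail _ hbc ih => exact ih.tail (hg _ _ hbc)

theorem walk_add {m n : ℕ} {x y z : V} (h : Walk E m x y) (h' : Walk E n y z) :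
    Walk E (m + n) x z := by
  induction m generalizing x with
  | zero =>
    have hxy : x = y := h
    subst hxy
    rw [Nat.zero_add]
    exact h'
  | succ m ih =>
    obtain ⟨w, hw, h2⟩ := h
    rw [Nat.succ_add]
    exact ⟨w, hw, ih h2⟩

theorem walk_of_rtg {x y : V} (h : Relation.ReflTransGen E x y) : ∃ n, Walk E n x y := by
  induction h with
  | refl => exact ⟨0, rfl⟩
  | tail _ hbc ih =>
    obtain ⟨n, hn⟩ := ih
    exact ⟨n + 1, walk_add hn (n := 1) ⟨_, hbc, rfl⟩⟩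

theorem walk_map {W : Type} {E' : W → W → Prop} {g : V → W}
    (hg : ∀ x y, E x y → E' (g x) (g y)) {n : ℕ} {x y : V} (h : Walk E n x y) :
    Walk E' n (g x) (g y) := by
  induction n generalizing x with
  | zero => exact congrArg g (h : x = y)
  | succ n ih =>
    obtain ⟨w, hw, h2⟩ := h
    exact ⟨g w, hg _ _ hw, ih h2⟩

/-- Long walks exist between all vertices of a component which contains an odd closed walk. -/
theorem long_walks (hs : ∀ x y, E x y → E y x) {x₁ : V} {m : ℕ} (hm : Odd m)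
    (hw : Walk E m x₁ x₁) {x y : V} (hx : Relation.ReflTransGen E x₁ x)
    (hy : Relation.ReflTransGen E x₁ y) : ∃ N, ∀ n, N ≤ n → Walk E n x y := by
  obtain ⟨a, ha⟩ := walk_of_rtg (rtg_symm hs hx)
  obtain ⟨b, hb⟩ := walk_of_rtg hy
  obtain ⟨z, hz⟩ : ∃ z, E x₁ z := by
    obtain ⟨j, rfl⟩ := hm
    obtain ⟨z, hz, _⟩ := hw
    exact ⟨z, hz⟩
  have hloop : ∀ j, Walk E (2 * j) x₁ x₁ := by
    intro j
    induction j with
    | zero => exact rfl
    | succ j ih => exact walk_add ih (n := 2) ⟨z, hz, x₁, hs _ _ hz, rfl⟩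
  refine ⟨a + m + b, fun n hn => ?_⟩
  rcases Nat.even_or_odd (n - (a + b)) with ⟨j, hj⟩ | ⟨j, hj⟩
  · have h1 := walk_add (walk_add ha (hloop j)) hb
    have h2 : a + 2 * j + b = n := by omega
    rwa [h2] at h1
  · obtain ⟨i, hi⟩ := hm
    have h1 := walk_add (walk_add (walk_add ha hw) (hloop (j - i))) hb
    have h2 : a + m + 2 * (j - i) + b = n := by omega
    rwa [h2] at h1

/-- With finitely many orbits on pairs one length is enough. -/
theorem uniform_walk (hs : ∀ x y, E x y → E y x)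
    (hol : ∃ P : Finset (Fin 2 → V), ∀ x : Fin 2 → V, ∃ y ∈ P, ∃ g : V ≃ V,
      (∀ a b, E a b ↔ E (g a) (g b)) ∧ ∀ i, g (y i) = x i)
    {x₁ : V} {m : ℕ} (hm : Odd m) (hw : Walk E m x₁ x₁) :
    ∃ L, ∀ x y, Relation.ReflTransGen E x₁ x → Relation.ReflTransGen E x₁ y → Walk E L x y := by
  classical
  obtain ⟨P, hP⟩ := hol
  refine ⟨P.sup fun r => if h : ∃ N, ∀ n, N ≤ n → Walk E n (r 0) (r 1) then h.choose else 0,
    fun x y hx hy => ?_⟩
  obtain ⟨N, hN⟩ := long_walks hs hm hw hx hy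
  obtain ⟨r, hr, g, hg, hgr⟩ := hP ![x, y]
  have h0 : g (r 0) = x := hgr 0
  have h1 : g (r 1) = y := hgr 1
  have h : ∃ N, ∀ n, N ≤ n → Walk E n (r 0) (r 1) := by
    refine ⟨N, fun n hn => ?_⟩
    have h2 : Walk E n (g.symm x) (g.symm y) := by
      refine walk_map (g := g.symm) (fun a b hab => ?_) (hN n hn)
      rw [hg, Equiv.apply_symm_apply, Equiv.apply_symm_apply]
      exact hab
    rw [← h0, ← h1, Equiv.symm_apply_apply, Equiv.symm_apply_apply] at h2
    exact h2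
  have h3 := h.choose_spec
  have h4 : h.choose ≤ P.sup fun r =>
      if h : ∃ N, ∀ n, N ≤ n → Walk E n (r 0) (r 1) then h.choose else 0 := by
    have := Finset.le_sup (f := fun r : Fin 2 → V =>
      if h : ∃ N, ∀ n, N ≤ n → Walk E n (r 0) (r 1) then h.choose else 0) hr
    simp only [dif_pos h] at this
    exact this
  rw [← h0, ← h1]
  exact walk_map (g := g) (fun a b => (hg a b).1) (h3 _ h4)

/-- A graph with an orbit copy of a projective core for a Ramsey group is not bipartite. -/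
theorem not_two_colorable (hG : RamseyGroup G) (hE : ∀ g ∈ G, ∀ x y, E x y → E (g x) (g y))
    (hT : ProjectiveCore R) (hO : OrbitCopy E G R O) :
    ¬ ∃ κ : V → Bool, ∀ x y, E x y → κ x ≠ κ y := by
  classical
  rintro ⟨κ, hκ⟩
  have := hT.fin
  have := Fintype.ofFinite T
  choose rep hrep using hO.ne
  have h : ∀ p : T × T, ∃ a b, R p.1 p.2 → a ∈ O p.1 ∧ b ∈ O p.2 ∧ E a b := by
    intro p
    by_cases hp : R p.1 p.2
    · obtain ⟨a, ha, b, hb, hab⟩ := hO.adj _ _ hp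
      exact ⟨a, b, fun _ => ⟨ha, hb, hab⟩⟩
    · exact ⟨rep p.1, rep p.2, fun h => absurd h hp⟩
  choose a b hab using h
  obtain ⟨g, hg, hinv⟩ := hG.one (Finset.univ.image rep ∪ (Finset.univ.image a ∪
    Finset.univ.image b)) κ
  have hr : ∀ t, rep t ∈ Finset.univ.image rep ∪ (Finset.univ.image a ∪ Finset.univ.image b) :=
    fun t => Finset.mem_union_left _ (Finset.mem_image_of_mem _ (Finset.mem_univ _))
  refine hT.nonbip ⟨fun t => κ (g (rep t)), fun s t hst => ?_⟩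
  obtain ⟨ha, hb, he⟩ := hab (s, t) hst
  have h1 := hinv (rep s) (hr s) (a (s, t)) (Finset.mem_union_right _ (Finset.mem_union_left _
    (Finset.mem_image_of_mem _ (Finset.mem_univ _)))) (hO.trans s _ (hrep s) _ ha)
  have h2 := hinv (rep t) (hr t) (b (s, t)) (Finset.mem_union_right _ (Finset.mem_union_right _
    (Finset.mem_image_of_mem _ (Finset.mem_univ _)))) (hO.trans t _ (hrep t) _ hb)
  show κ (g (rep s)) ≠ κ (g (rep t))
  rw [h1, h2]
  exact hκ _ _ (hE g hg _ _ he)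

/-- The component of `x₀`. -/
def Cmp (E : V → V → Prop) (x₀ : V) : Type := {y : V // Relation.ReflTransGen E x₀ y}

/-- The graph on the component. -/
def CE (E : V → V → Prop) (x₀ : V) : Cmp E x₀ → Cmp E x₀ → Prop := fun a b => E a.1 b.1

/-- The group induced on the component. -/
def compGroup (G : Subgroup (Equiv.Perm V)) (E : V → V → Prop) (x₀ : V) :
    Subgroup (Equiv.Perm (Cmp E x₀)) where
  carrier := {π | ∃ g ∈ G, ∀ c, (π c).1 = g c.1}
  mul_mem' := by
    rintro π₁ π₂ ⟨g₁, h₁, e₁⟩ ⟨g₂, h₂, e₂⟩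
    refine ⟨g₁ * g₂, G.mul_mem h₁ h₂, fun c => ?_⟩
    rw [Equiv.Perm.mul_apply, e₁, e₂]
    rfl
  one_mem' := ⟨1, G.one_mem, fun _ => rfl⟩
  inv_mem' := by
    rintro π ⟨g, hg, e⟩
    refine ⟨g⁻¹, G.inv_mem hg, fun c => ?_⟩
    rw [Equiv.Perm.eq_inv_iff_eq, ← e, app_inv]

theorem exists_lift (hs : ∀ x y, E x y → E y x)
    (hE : ∀ g ∈ G, ∀ x y, E x y → E (g x) (g y)) {x₀ : V} {g : Equiv.Perm V} (hg : g ∈ G)
    (h : Relation.ReflTransGen E x₀ (g x₀)) :
    ∃ π ∈ compGroup G E x₀, ∀ c, (π c).1 = g c.1 := by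
  have h1 : ∀ c : Cmp E x₀, Relation.ReflTransGen E x₀ (g c.1) := fun c =>
    h.trans (rtg_map (hE g hg) c.2)
  have h0 : Relation.ReflTransGen E x₀ (g⁻¹ x₀) := by
    have := rtg_map (hE _ (G.inv_mem hg)) (rtg_symm hs h)
    rwa [inv_app] at this
  have h2 : ∀ c : Cmp E x₀, Relation.ReflTransGen E x₀ (g⁻¹ c.1) := fun c =>
    h0.trans (rtg_map (hE _ (G.inv_mem hg)) c.2)
  refine ⟨⟨fun c => ⟨g c.1, h1 c⟩, fun c => ⟨g⁻¹ c.1, h2 c⟩, fun c => ?_, fun c => ?_⟩,
    ⟨g, hg, fun c => rfl⟩, fun c => rfl⟩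
  · apply Subtype.ext
    exact inv_app g c.1
  · apply Subtype.ext
    exact app_inv g c.1

theorem ramsey_comp (hG : RamseyGroup G) (hs : ∀ x y, E x y → E y x)
    (hE : ∀ g ∈ G, ∀ x y, E x y → E (g x) (g y)) (x₀ : V) :
    RamseyGroup (compGroup G E x₀) := by
  classical
  intro n k F χ
  rcases n with _ | n
  · refine ⟨1, Subgroup.one_mem _, fun x y _ _ _ => ?_⟩
    congr 1
    funext i
    exact i.elim0
  · let comp : V → Set V := fun z => {y | Relation.ReflTransGen E z y}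
    have hcomp : ∀ z z', Relation.ReflTransGen E z z' → comp z' = comp z := by
      intro z z' h
      ext y
      exact ⟨fun hy => h.trans hy, fun hy => (rtg_symm hs h).trans hy⟩
    let sel : Set V → Equiv.Perm V := fun K => if h : ∃ g ∈ G, g x₀ ∈ K then h.choose else 1
    have hsel : ∀ K, (∃ g ∈ G, g x₀ ∈ K) → sel K ∈ G ∧ sel K x₀ ∈ K := by
      intro K h
      simp only [sel, dif_pos h]
      exact h.choose_spec
    let dflt : Fin k := χ (fun _ => ⟨x₀, Relation.ReflTransGen.refl⟩)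
    let χ' : (Fin (n + 1) → V) → Fin k := fun y =>
      if h : ∀ i, Relation.ReflTransGen E x₀ ((sel (comp (y 0)))⁻¹ (y i)) then
        χ (fun i => ⟨_, h i⟩) else dflt
    obtain ⟨g, hg, hinv⟩ := hG (n + 1) k (F.image Subtype.val) χ'
    have hK := hsel (comp (g x₀)) ⟨g, hg, Relation.ReflTransGen.refl⟩
    set γ := sel (comp (g x₀)) with hγ
    have hη : γ⁻¹ * g ∈ G := G.mul_mem (G.inv_mem hK.1) hg
    have hη0 : Relation.ReflTransGen E x₀ ((γ⁻¹ * g) x₀) := by
      have h1 : Relation.ReflTransGen E (γ x₀) (g x₀) := rtg_symm hs hK.2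
      have h2 := rtg_map (hE _ (G.inv_mem hK.1)) h1
      rwa [inv_app] at h2
    obtain ⟨π, hπ, e⟩ := exists_lift hs hE hη hη0
    have key : ∀ x : Fin (n + 1) → Cmp E x₀, χ' (fun i => g (x i).1) = χ (fun i => π (x i)) := by
      intro x
      have h0 : sel (comp (g (x 0).1)) = γ := by
        rw [hγ, hcomp _ _ (rtg_map (hE g hg) (x 0).2)]
      have h1 : ∀ i, Relation.ReflTransGen E x₀ ((sel (comp (g (x 0).1)))⁻¹ (g (x i).1)) := by
        intro i
        rw [h0]
        have := (π (x i)).2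
        rw [e] at this
        exact this
      simp only [χ', dif_pos h1]
      congr 1
      funext i
      apply Subtype.ext
      rw [e]
      simp only [h0]
      rfl
    refine ⟨π, hπ, fun x y hx hy hxy => ?_⟩
    rw [← key, ← key]
    obtain ⟨γ', ⟨g', hg', e'⟩, hxy⟩ := hxy
    refine hinv _ _ (fun i => Finset.mem_image_of_mem _ (hx i))
      (fun i => Finset.mem_image_of_mem _ (hy i)) ⟨g', hg', fun i => ?_⟩
    rw [← e', hxy]

theorem ce_inv (hE : ∀ g ∈ G, ∀ x y, E x y → E (g x) (g y)) {x₀ : V} :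
    ∀ π ∈ compGroup G E x₀, ∀ a b, CE E x₀ a b → CE E x₀ (π a) (π b) := by
  rintro π ⟨g, hg, e⟩ a b hab
  show E (π a).1 (π b).1
  rw [e, e]
  exact hE g hg _ _ hab

theorem orbitCopy_comp (hs : ∀ x y, E x y → E y x)
    (hE : ∀ g ∈ G, ∀ x y, E x y → E (g x) (g y)) (hT : ProjectiveCore R)
    (hO : OrbitCopy E G R O) {x₀ : V} {t₀ : T} (h₀ : x₀ ∈ O t₀) :
    OrbitCopy (CE E x₀) (compGroup G E x₀) R (fun t => {c | c.1 ∈ O t}) := by
  obtain ⟨nb, hnb⟩ := hO.exists_nb hE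
  have hne : ∀ t, ∃ y ∈ O t, Relation.ReflTransGen E x₀ y := by
    intro t
    have := hT.conn t₀ t
    induction this with
    | refl => exact ⟨x₀, h₀, Relation.ReflTransGen.refl⟩
    | tail _ hbc ih =>
      obtain ⟨y, hy, hr⟩ := ih
      obtain ⟨h1, h2⟩ := hnb _ _ y hbc hy
      exact ⟨_, h1, hr.tail h2⟩
  refine ⟨fun t => ?_, ?_, ?_, ?_⟩
  · obtain ⟨y, hy, hr⟩ := hne t
    exact ⟨⟨y, hr⟩, hy⟩
  · rintro t x hx π ⟨g, hg, e⟩
    show (π x).1 ∈ O t
    rw [e]
    exact hO.inv t _ hx g hg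
  · intro t x hx y hy
    obtain ⟨γ, hγ, hxy⟩ := hO.trans t x.1 hx y.1 hy
    have h1 : Relation.ReflTransGen E x₀ (γ x₀) := by
      have h2 := rtg_map (hE γ hγ) (rtg_symm hs x.2)
      rw [hxy] at h2
      exact y.2.trans h2
    obtain ⟨π, hπ, e⟩ := exists_lift hs hE hγ h1
    exact ⟨π, hπ, Subtype.ext (by rw [e, hxy])⟩
  · intro s t hst
    obtain ⟨y, hy, hr⟩ := hne s
    obtain ⟨h1, h2⟩ := hnb _ _ y hst hy
    exact ⟨⟨y, hr⟩, hy, ⟨nb t y, hr.tail h2⟩, h1, h2⟩

theorem walk_comp {x₀ : V} {n : ℕ} {x y : V} (h : Walk E n x y)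
    (hx : Relation.ReflTransGen E x₀ x) (hy : Relation.ReflTransGen E x₀ y) :
    Walk (CE E x₀) n ⟨x, hx⟩ ⟨y, hy⟩ := by
  induction n generalizing x with
  | zero =>
    have hxy : x = y := h
    subst hxy
    rfl
  | succ n ih =>
    obtain ⟨z, hz, h2⟩ := h
    exact ⟨⟨z, hx.tail hz⟩, hz, ih h2 (hx.tail hz)⟩

end Pool.Agent.H53.RG
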