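import Pool.Agent.H53.RG.Defs

/-!
# Colourings of powers of complete graphs (Greenwell and Lovász)
-/

set_option autoImplicit false

namespace Pool.Agent.H53.RG

theorem exists_ne_two {c : ℕ} (hc : 3 ≤ c) (a b : Fin c) : ∃ d : Fin c, d ≠ a ∧ d ≠ b := by
  have h : ({a, b} : Finset (Fin c)).card < (Finset.univ : Finset (Fin c)).card := by
    rw [Finset.card_univ, Fintype.card_fin]
    exact lt_of_le_of_lt Finset.card_le_two (by omega)
  obtain ⟨d, _, hd⟩ := Finset.exists_mem_notMem_of_card_lt_card h
  simp only [Finset.mem_insert, Finset.mem_singleton, not_or] at hd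
  exact ⟨d, hd.1, hd.2⟩

theorem greenwellLovasz {c : ℕ} (hc : 3 ≤ c) (n : ℕ) (f : (Fin n → Fin c) → Fin c)
    (hf : ∀ x y, (∀ i, x i ≠ y i) → f x ≠ f y) :
    ∃ (i : Fin n) (α : Fin c ≃ Fin c), ∀ x, f x = α (x i) := by
  induction n with
  | zero => exact absurd rfl (hf (fun i => i.elim0) (fun i => i.elim0) fun i => i.elim0)
  | succ n ih =>
    -- the row of `a`
    have hrow : ∀ a b : Fin n → Fin c, (∀ i, a i ≠ b i) → ∀ x y, x ≠ y →
        f (Fin.cons x a) ≠ f (Fin.cons y b) := by
      intro a b hab x y hxy
      refine hf _ _ fun i => ?_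
      refine Fin.cases ?_ (fun j => ?_) i
      · simpa using hxy
      · simpa using hab j
    by_cases hinj : ∃ a : Fin n → Fin c, Function.Injective fun x => f (Fin.cons x a)
    · obtain ⟨a, ha⟩ := hinj
      have hbij : Function.Bijective fun x => f (Fin.cons x a) :=
        Finite.injective_iff_bijective.1 ha
      have step : ∀ (a b : Fin n → Fin c), (∀ i, a i ≠ b i) →
          (Function.Bijective fun x => f (Fin.cons x a)) →
          ∀ y, f (Fin.cons y b) = f (Fin.cons y a) := by
        intro a b hab hbij y
        obtain ⟨x, hx⟩ := hbij.2 (f (Fin.cons y b))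
        by_cases hxy : x = y
        · rw [hxy] at hx
          exact hx.symm
        · exact absurd hx (hrow a b hab x y hxy)
      have all : ∀ b : Fin n → Fin c, ∀ y, f (Fin.cons y b) = f (Fin.cons y a) := by
        intro b
        choose d hd1 hd2 using fun i => exists_ne_two hc (a i) (b i)
        have h1 := step a d (fun i => (hd1 i).symm) hbij
        have hbij' : Function.Bijective fun x => f (Fin.cons x d) := by
          have : (fun x => f (Fin.cons x d)) = fun x => f (Fin.cons x a) := funext h1
          rw [this]
          exact hbij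
        intro y
        rw [step d b hd2 hbij' y, h1 y]
      refine ⟨0, Equiv.ofBijective _ hbij, fun x => ?_⟩
      have h1 : x = Fin.cons (x 0) (fun i => x i.succ) := by
        funext i
        refine Fin.cases ?_ (fun j => ?_) i <;> simp
      conv_lhs => rw [h1]
      rw [all]
      rfl
    · have hrep : ∀ a : Fin n → Fin c, ∃ x y, x ≠ y ∧ f (Fin.cons x a) = f (Fin.cons y a) := by
        intro a
        by_contra hcon
        refine hinj ⟨a, fun x y hxy => ?_⟩
        by_contra hne
        exact hcon ⟨x, y, hne, hxy⟩
      choose u v huv huv2 using hrep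
      have hmiss : ∀ a b : Fin n → Fin c, (∀ i, a i ≠ b i) → ∀ y,
          f (Fin.cons (u a) a) ≠ f (Fin.cons y b) := by
        intro a b hab y
        by_cases hy : u a = y
        · rw [huv2 a]
          exact hrow a b hab _ _ (by rw [← hy]; exact (huv a).symm)
        · exact hrow a b hab _ _ hy
      obtain ⟨i, α, hα⟩ := ih (fun a => f (Fin.cons (u a) a)) fun a b hab => hmiss a b hab (u b)
      refine ⟨i.succ, α, fun x => ?_⟩
      have h1 : x = Fin.cons (x 0) (fun i => x i.succ) := by
        funext i
        refine Fin.cases ?_ (fun j => ?_) i <;> simp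
      by_contra hne
      set y : Fin n → Fin c := fun i => x i.succ with hy
      set t := α.symm (f x) with ht
      have hti : t ≠ y i := by
        intro h
        apply hne
        have : f x = α t := by rw [ht]; simp
        rw [this, h]
      choose d hd using fun j => exists_ne_two hc (y j) (y j)
      have hab : ∀ j, (Function.update d i t) j ≠ y j := by
        intro j
        by_cases hj : j = i
        · subst hj
          rw [Function.update_self]
          exact hti
        · rw [Function.update_of_ne hj]
          exact (hd j).1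
      have h2 := hmiss (Function.update d i t) y hab (x 0)
      have h3 := hα (Function.update d i t)
      rw [Function.update_self] at h3
      apply h2
      change f (Fin.cons (u (Function.update d i t)) (Function.update d i t)) = _ at h3
      rw [h3, ht, Equiv.apply_symm_apply]
      conv_lhs => rw [h1]

/-- Complete graphs with at least three vertices are connected projective cores. -/
theorem projectiveCore_complete {c : ℕ} (hc : 3 ≤ c) :
    ProjectiveCore (fun i j : Fin c => i ≠ j) where
  fin := inferInstance
  symm := fun _ _ h => h.symm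
  irr := fun _ h => h rfl
  conn := by
    intro s t
    by_cases h : s = t
    · rw [h]
    · exact Relation.ReflTransGen.single h
  nonbip := by
    rintro ⟨κ, hκ⟩
    have h1 := hκ ⟨0, by omega⟩ ⟨1, by omega⟩ (by simp)
    have h2 := hκ ⟨0, by omega⟩ ⟨2, by omega⟩ (by simp)
    have h3 := hκ ⟨1, by omega⟩ ⟨2, by omega⟩ (by simp)
    revert h1 h2 h3
    cases κ ⟨0, by omega⟩ <;> cases κ ⟨1, by omega⟩ <;> cases κ ⟨2, by omega⟩ <;> simp
  proj := by
    intro f hf
    obtain ⟨i, α, h⟩ := greenwellLovasz hc 6 f hf
    exact ⟨i, α, fun s t => α.injective.ne_iff.symm, h⟩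

end Pool.Agent.H53.RG
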