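import Pool.Agent.H48.RG.Targets

set_option autoImplicit false

open MeasureTheory Metric Set Filter Topology Pool.Agent.H87.SN Pool.Agent.H48.RG
open scoped ContDiff RealInnerProductSpace ENNReal

namespace Pool.Agent.H53.RG

/-- restriction to the unit ball -/
theorem wb_ball {n : ℕ} {ρ : ℝ} {g : E n → ℝ} {Dg : E n → E n} (h : WC ρ g Dg) :
    WB (ball (0 : E n) 1) g Dg := by
  obtain ⟨⟨h1, h2, h3, h4⟩, h5⟩ := h
  rw [Measure.restrict_univ] at h1 h2 h3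
  refine ⟨h1.restrict, ?_, h3.restrict _, ?_⟩
  · obtain ⟨B, hB⟩ := h2
    exact ⟨B, ae_restrict_of_ae hB⟩
  · intro φ hφ v
    exact h4 φ ⟨hφ.1, hφ.2.1, subset_univ _⟩ v

theorem int_inner {n : ℕ} {μ : Measure (E n)} {G D : E n → E n} (hG : MemLp G 2 μ)
    (hD : MemLp D 2 μ) : Integrable (fun x => ⟪G x, D x⟫) μ := by
  have h1 := (memLp_two_iff_integrable_sq_norm hG.1).1 hG
  have h2 := (memLp_two_iff_integrable_sq_norm hD.1).1 hD
  refine (h1.add h2).mono' (hG.1.inner hD.1) (ae_of_all _ fun x => ?_)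
  rw [Real.norm_eq_abs]
  refine (abs_real_inner_le_norm _ _).trans ?_
  simp only [Pi.add_apply]
  nlinarith [sq_nonneg (‖G x‖ - ‖D x‖), sq_nonneg ‖G x‖, sq_nonneg ‖D x‖]

theorem int_bd_inner {n : ℕ} {μ : Measure (E n)} {f : E n → ℝ} {G D : E n → E n}
    (hf : AEStronglyMeasurable f μ) (hb : ∃ B : ℝ, ∀ᵐ x ∂μ, |f x| ≤ B) (hG : MemLp G 2 μ)
    (hD : MemLp D 2 μ) : Integrable (fun x => f x * ⟪G x, D x⟫) μ := by
  obtain ⟨B, hB⟩ := hb
  exact (int_inner hG hD).bdd_mul (c := B) hf hB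

theorem pf_IBG (hE : T_EXT) (hL : T_LEI) (hT : T_TSE) : T_IBG := by
  intro n G hG hdf ρ f g Df Dg hρ0 hρ1 hf hg
  have hg1 := wb_ball hg
  have hfg := hL n f g Df Dg hf hg1
  have hoff : ∀ x, x ∉ closedBall (0 : E n) ρ → f x * g x = 0 ∧ f x • Dg x + g x • Df x = 0 := by
    intro x hx
    obtain ⟨a, b⟩ := hg.off x hx
    simp [a, b]
  have hWC := hE n ρ _ _ hρ0 hρ1 hfg hoff
  have h := hT n G (fun _ => 0) hG integrableOn_zero (by
    intro φ hφ
    rw [hdf φ hφ]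
    simp) ρ _ _ hρ0 hρ1 hWC
  simp only [mul_zero, integral_zero, inner_add_right, inner_smul_right] at h
  rw [integral_add (int_bd_inner hf.ms hf.bd hG hg1.d2) (int_bd_inner hg1.ms hg1.bd hG hf.d2)] at h
  linarith

end Pool.Agent.H53.RG
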