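import Pool.Agent.H53.RG.IBG

set_option autoImplicit false

open MeasureTheory Metric Set Filter Topology Pool.Agent.H87.SN Pool.Agent.H48.RG
open scoped ContDiff RealInnerProductSpace ENNReal

namespace Pool.Agent.H53.RG

theorem memLp_bd_smul {n : ℕ} {μ : Measure (E n)} {f : E n → ℝ} {D : E n → E n}
    (hf : AEStronglyMeasurable f μ) (hb : ∃ B : ℝ, ∀ᵐ x ∂μ, |f x| ≤ B) (hD : MemLp D 2 μ) :
    MemLp (fun x => f x • D x) 2 μ := by
  obtain ⟨B, hB⟩ := hb
  refine hD.of_le_mul (c := B) (hf.smul hD.1) ?_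
  filter_upwards [hB] with x hx
  rw [norm_smul, Real.norm_eq_abs]
  exact mul_le_mul_of_nonneg_right hx (norm_nonneg _)

theorem bd_mul {n : ℕ} {μ : Measure (E n)} {f g : E n → ℝ} (hf : ∃ B : ℝ, ∀ᵐ x ∂μ, |f x| ≤ B)
    (hg : ∃ B : ℝ, ∀ᵐ x ∂μ, |g x| ≤ B) : ∃ B : ℝ, ∀ᵐ x ∂μ, |f x * g x| ≤ B := by
  obtain ⟨B, hB⟩ := hf
  obtain ⟨C, hC⟩ := hg
  refine ⟨B * C, ?_⟩
  filter_upwards [hB, hC] with x h1 h2
  rw [abs_mul]
  exact mul_le_mul h1 h2 (abs_nonneg _) ((abs_nonneg _).trans h1)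

theorem grad_inner {n : ℕ} (φ : E n → ℝ) (x v : E n) : ⟪gradient φ x, v⟫ = fderiv ℝ φ x v := by
  unfold gradient
  exact InnerProductSpace.toDual_symm_apply

theorem tst_off {n : ℕ} {φ : E n → ℝ} {K : Set (E n)} (h : tsupport φ ⊆ K) (x : E n)
    (hx : x ∉ K) : φ x = 0 ∧ fderiv ℝ φ x = 0 := by
  have h1 : x ∉ tsupport φ := fun h' => hx (h h')
  refine ⟨image_eq_zero_of_notMem_tsupport h1, ?_⟩
  by_contra h2
  exact h1 (support_fderiv_subset ℝ (f := φ) (by simpa [Function.mem_support] using h2))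

theorem pf_LEI (hS : T_SMW) (hE : T_EXT) (hT : T_TSE) : T_LEI := by
  intro n f g Df Dg hf hg
  refine ⟨hf.ms.mul hg.ms, bd_mul hf.bd hg.bd, ?_, ?_⟩
  · exact (memLp_bd_smul hf.ms hf.bd hg.d2).add (memLp_bd_smul hg.ms hg.bd hf.d2)
  · intro φ hφ v
    obtain ⟨ρ, ⟨hρ0, hρ1⟩, hρ⟩ := exists_pos_lt_subset_ball (zero_lt_one) (isClosed_tsupport φ)
      hφ.2.2
    have hsupp : tsupport φ ⊆ closedBall (0 : E n) ρ := hρ.trans ball_subset_closedBall
    have hφc : Continuous φ := hφ.1.continuous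
    have hφm : AEStronglyMeasurable φ (volume.restrict (ball (0 : E n) 1)) :=
      hφc.aestronglyMeasurable
    have hφb : ∃ B : ℝ, ∀ᵐ x ∂(volume.restrict (ball (0 : E n) 1)), |φ x| ≤ B := by
      obtain ⟨B, hB⟩ := hφc.bounded_above_of_compact_support hφ.2.1
      exact ⟨B, ae_of_all _ hB⟩
    have hW := hS n 0 1 φ g Dg hφ.1 hg
    have hoff : ∀ x, x ∉ closedBall (0 : E n) ρ → φ x * g x = 0 ∧ dm φ g Dg x = 0 := by
      intro x hx
      obtain ⟨a, b⟩ := tst_off hsupp x hx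
      have c : gradient φ x = 0 := by
        unfold gradient
        rw [b, map_zero]
      simp [a, c, dm]
    have hWC := hE n ρ _ _ hρ0 hρ1 hW hoff
    have : IsFiniteMeasure (volume.restrict (ball (0 : E n) 1)) :=
      ⟨by rw [Measure.restrict_apply_univ]; exact measure_ball_lt_top⟩
    have hv : MemLp (fun _ : E n => v) 2 (volume.restrict (ball (0 : E n) 1)) :=
      memLp_const v
    have hG : MemLp (fun x => f x • v) 2 (volume.restrict (ball (0 : E n) 1)) :=
      memLp_bd_smul hf.ms hf.bd hv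
    have hset : ∀ (F : E n → ℝ), (∀ x, x ∉ ball (0 : E n) 1 → F x = 0) →
        ∫ x in ball (0 : E n) 1, F x = ∫ x, F x := fun F hF =>
      setIntegral_eq_integral_of_forall_compl_eq_zero hF
    have h := hT n (fun x => f x • v) (fun x => -⟪Df x, v⟫) hG (int_inner hf.d2 hv).neg (by
      intro ψ hψ
      have e := hf.wg ψ hψ v
      rw [hset _ (fun x hx => by rw [(tst_off hψ.2.2 x hx).2]; simp),
        hset _ (fun x hx => by rw [(tst_off hψ.2.2 x hx).1]; simp)]
      simp only [map_smul, smul_eq_mul, mul_neg]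
      rw [integral_neg, ← e]
      congr 1
      funext x
      ring) ρ _ _ hρ0 hρ1 hWC
    -- integrability
    have i1 : Integrable (fun x => ⟪f x • v, dm φ g Dg x⟫)
        (volume.restrict (ball (0 : E n) 1)) := int_inner hG hW.d2
    have i2 : Integrable (fun x => (f x * φ x) * ⟪v, Dg x⟫)
        (volume.restrict (ball (0 : E n) 1)) :=
      int_bd_inner (hf.ms.mul hφm) (bd_mul hf.bd hφb) hv hg.d2
    have i3 : Integrable (fun x => (φ x * g x) * ⟪v, Df x⟫)
        (volume.restrict (ball (0 : E n) 1)) :=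
      int_bd_inner (hφm.mul hg.ms) (bd_mul hφb hg.bd) hv hf.d2
    have e1 : ∀ x, fderiv ℝ φ x v * (f x * g x) =
        ⟪f x • v, dm φ g Dg x⟫ - (f x * φ x) * ⟪v, Dg x⟫ := by
      intro x
      unfold dm
      rw [inner_smul_left, inner_add_right, inner_smul_right, inner_smul_right,
        real_inner_comm (gradient φ x) v, grad_inner]
      simp
      ring
    have e2 : ∀ x, φ x * ⟪f x • Dg x + g x • Df x, v⟫ =
        (f x * φ x) * ⟪v, Dg x⟫ + (φ x * g x) * ⟪v, Df x⟫ := by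
      intro x
      rw [inner_add_left, inner_smul_left, inner_smul_left, real_inner_comm v (Dg x),
        real_inner_comm v (Df x)]
      simp
      ring
    rw [← hset _ (fun x hx => by rw [(tst_off hφ.2.2 x hx).2]; simp),
      ← hset _ (fun x hx => by rw [(tst_off hφ.2.2 x hx).1]; simp)]
    simp only [e1, e2]
    rw [integral_sub i1 i2, integral_add i2 i3, h]
    have e3 : ∫ x in ball (0 : E n) 1, φ x * g x * -⟪Df x, v⟫ =
        -∫ x in ball (0 : E n) 1, (φ x * g x) * ⟪v, Df x⟫ := by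
      rw [← integral_neg]
      congr 1
      funext x
      rw [real_inner_comm v (Df x)]
      ring
    rw [e3]
    ring

end Pool.Agent.H53.RG
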