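import Pool.Agent.H53.RG.Defs

/-!
# Invariant limits
-/

set_option autoImplicit false

namespace Pool.Agent.H53.RG

variable {V T : Type} {E : V → V → Prop} {R : T → T → Prop} {G : Subgroup (Equiv.Perm V)}

/-- `h` is a homomorphism from the sixth power of `(V; E)` to `(T; R)`. -/
def Hom6 (E : V → V → Prop) (R : T → T → Prop) (h : (Fin 6 → V) → T) : Prop :=
  ∀ x y : Fin 6 → V, (∀ i, E (x i) (y i)) → R (h x) (h y)

/-- The Olšák identities. -/
def Ols (h : (Fin 6 → V) → T) : Prop :=
  ∀ x y : V, h ![x, x, y, y, y, x] = h ![x, y, x, y, x, y] ∧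
    h ![x, y, x, y, x, y] = h ![y, x, x, x, y, y]

theorem map_six (g : V → V) (a b c d e f : V) :
    (fun i => g ((![a, b, c, d, e, f] : Fin 6 → V) i)) = ![g a, g b, g c, g d, g e, g f] := by
  funext i
  fin_cases i <;> rfl

/-- From an Olšák function to an Olšák function which is invariant under the group. -/
theorem exists_invariant (hG : RamseyGroup G) (hE : ∀ g ∈ G, ∀ x y, E x y → E (g x) (g y))
    [Finite T] {h : (Fin 6 → V) → T} (hh : Hom6 E R h) (ho : Ols h) :
    ∃ h' : (Fin 6 → V) → T, Hom6 E R h' ∧ Ols h' ∧
      ∀ γ ∈ G, ∀ x, h' (fun i => γ (x i)) = h' x := by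
  classical
  choose g hg hinv using fun F : Finset V => hG.finite 6 F h
  obtain ⟨h', spec⟩ : ∃ h' : (Fin 6 → V) → T, ∀ x : Fin 6 → V,
      ∀ᶠ F in ((cone V : Ultrafilter (Finset V)) : Filter (Finset V)),
        h (fun i => g F (x i)) = h' x :=
    ⟨fun x => ulim (cone V) (fun F => h (fun i => g F (x i))),
      fun x => ulim_spec (cone V) (fun F => h (fun i => g F (x i)))⟩
  refine ⟨h', ?_, ?_, ?_⟩
  · intro x y hxy
    obtain ⟨F, h1, h2⟩ := ((spec x).and (spec y)).exists
    rw [← h1, ← h2]
    exact hh _ _ fun i => hE _ (hg F) _ _ (hxy i)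
  · intro x y
    obtain ⟨F, h1, h2, h3⟩ := ((spec ![x, x, y, y, y, x]).and
      ((spec ![x, y, x, y, x, y]).and (spec ![y, x, x, x, y, y]))).exists
    rw [map_six] at h1 h2 h3
    obtain ⟨e1, e2⟩ := ho (g F x) (g F y)
    exact ⟨by rw [← h1, ← h2, e1], by rw [← h2, ← h3, e2]⟩
  · intro γ hγ x
    obtain ⟨F, h1, h2, hF⟩ := ((spec x).and ((spec fun i => γ (x i)).and
      (cone_mem (Finset.univ.image x ∪ Finset.univ.image fun i => γ (x i))))).exists
    rw [← h1, ← h2]
    refine (hinv F x (fun i => γ (x i)) (fun i => hF ?_) (fun i => hF ?_) ⟨γ, hγ, fun _ => rfl⟩).symm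
    · exact Finset.mem_union_left _ (Finset.mem_image_of_mem _ (Finset.mem_univ i))
    · exact Finset.mem_union_right _
        (Finset.mem_image_of_mem (fun i => γ (x i)) (Finset.mem_univ i))

/-- Invariance in the coordinates of `J` separately, and closeness to `h`. -/
structure Part (E : V → V → Prop) (R : T → T → Prop) (G : Subgroup (Equiv.Perm V))
    (h : (Fin 6 → V) → T) (J : Finset (Fin 6)) (H : (Fin 6 → V) → T) : Prop where
  hom : Hom6 E R H
  inv : ∀ j ∈ J, ∀ γ ∈ G, ∀ x : Fin 6 → V, H (Function.update x j (γ (x j))) = H x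
  close : ∀ F : Finset V, ∃ g : Fin 6 → Equiv.Perm V, (∀ i, g i ∈ G) ∧
    ∀ x : Fin 6 → V, (∀ i, x i ∈ F) → H x = h (fun i => g i (x i))

theorem Part.step (hG : RamseyGroup G) (hE : ∀ g ∈ G, ∀ x y, E x y → E (g x) (g y))
    [Finite T] {h H : (Fin 6 → V) → T} {J : Finset (Fin 6)} (hH : Part E R G h J H)
    (j : Fin 6) : ∃ H', Part E R G h (insert j J) H' := by
  classical
  choose g hg hinv using fun F : Finset V => hG.one (κ := (Fin 6 → F) → T) F
    (fun v x => H (Function.update (fun i => (x i : V)) j v))
  obtain ⟨H', spec⟩ : ∃ H' : (Fin 6 → V) → T, ∀ x : Fin 6 → V,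
      ∀ᶠ F in ((cone V : Ultrafilter (Finset V)) : Filter (Finset V)),
        H (Function.update x j (g F (x j))) = H' x :=
    ⟨fun x => ulim (cone V) (fun F => H (Function.update x j (g F (x j)))),
      fun x => ulim_spec (cone V) (fun F => H (Function.update x j (g F (x j))))⟩
  refine ⟨H', ?_, ?_, ?_⟩
  · intro x y hxy
    obtain ⟨F, h1, h2⟩ := ((spec x).and (spec y)).exists
    rw [← h1, ← h2]
    refine hH.hom _ _ fun i => ?_
    by_cases hij : i = j
    · subst hij
      rw [Function.update_self, Function.update_self]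
      exact hE _ (hg F) _ _ (hxy i)
    · rw [Function.update_of_ne hij, Function.update_of_ne hij]
      exact hxy i
  · intro j' hj' γ hγ x
    by_cases hjj : j' = j
    · subst hjj
      obtain ⟨F, h1, h2, hF⟩ := ((spec x).and ((spec (Function.update x j' (γ (x j')))).and
        (cone_mem (insert (γ (x j')) (Finset.univ.image x))))).exists
      rw [← h1, ← h2]
      have hxF : ∀ i, x i ∈ F := fun i =>
        hF (Finset.mem_insert_of_mem (Finset.mem_image_of_mem _ (Finset.mem_univ i)))
      have h3 := hinv F (x j') (hxF j') (γ (x j')) (hF (Finset.mem_insert_self _ _)) ⟨γ, hγ, rfl⟩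
      have h4 := congrFun h3 (fun i => ⟨x i, hxF i⟩)
      rw [Function.update_self, Function.update_idem]
      exact h4.symm
    · have hj'' : j' ∈ J := by
        rcases Finset.mem_insert.1 hj' with h | h
        · exact absurd h hjj
        · exact h
      obtain ⟨F, h1, h2⟩ := ((spec x).and (spec (Function.update x j' (γ (x j'))))).exists
      rw [← h1, ← h2, Function.update_of_ne (Ne.symm hjj), Function.update_comm hjj]
      have h3 := hH.inv j' hj'' γ hγ (Function.update x j (g F (x j)))
      rw [Function.update_of_ne hjj] at h3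
      exact h3
  · intro F
    have hall : ∀ᶠ F' in ((cone V : Ultrafilter (Finset V)) : Filter (Finset V)),
        ∀ x : Fin 6 → F, H (Function.update (fun i => (x i : V)) j (g F' (x j))) =
          H' (fun i => (x i : V)) := by
      rw [Filter.eventually_all]
      intro x
      exact spec fun i => (x i : V)
    obtain ⟨F', hF'⟩ := hall.exists
    obtain ⟨g', hg', hclose⟩ := hH.close (F ∪ F.image (g F'))
    refine ⟨Function.update g' j (g' j * g F'), fun i => ?_, fun x hx => ?_⟩
    · by_cases hij : i = j
      · subst hij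
        rw [Function.update_self]
        exact G.mul_mem (hg' i) (hg F')
      · rw [Function.update_of_ne hij]
        exact hg' i
    · have h1 := hF' fun i => ⟨x i, hx i⟩
      change H (Function.update x j (g F' (x j))) = H' x at h1
      rw [← h1, hclose]
      · congr 1
        funext i
        by_cases hij : i = j
        · subst hij
          rw [Function.update_self, Function.update_self]
          rfl
        · rw [Function.update_of_ne hij, Function.update_of_ne hij]
      · intro i
        by_cases hij : i = j
        · subst hij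
          rw [Function.update_self]
          exact Finset.mem_union_right _ (Finset.mem_image_of_mem _ (hx i))
        · rw [Function.update_of_ne hij]
          exact Finset.mem_union_left _ (hx i)

theorem exists_part (hG : RamseyGroup G) (hE : ∀ g ∈ G, ∀ x y, E x y → E (g x) (g y))
    [Finite T] {h : (Fin 6 → V) → T} (hh : Hom6 E R h) (J : Finset (Fin 6)) :
    ∃ H, Part E R G h J H := by
  classical
  induction J using Finset.induction_on with
  | empty => exact ⟨h, hh, by simp, fun F => ⟨fun _ => 1, fun _ => G.one_mem, fun _ _ => rfl⟩⟩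
  | insert j J _ ih =>
    obtain ⟨H, hH⟩ := ih
    exact hH.step hG hE j

/-- Invariance in all coordinates. -/
theorem Part.full {h H : (Fin 6 → V) → T} (hH : Part E R G h Finset.univ H)
    {x y : Fin 6 → V} (hxy : ∀ i, ∃ γ ∈ G, γ (x i) = y i) : H y = H x := by
  classical
  have key : ∀ S : Finset (Fin 6), H (fun i => if i ∈ S then y i else x i) = H x := by
    intro S
    induction S using Finset.induction_on with
    | empty => simp
    | insert j S hj ih =>
      rw [← ih]
      obtain ⟨γ, hγ, e⟩ := hxy j
      have h1 := hH.inv j (Finset.mem_univ j) γ hγ (fun i => if i ∈ S then y i else x i)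
      rw [← h1]
      congr 1
      funext i
      by_cases hij : i = j
      · subst hij
        rw [Function.update_self]
        simp [hj, e]
      · rw [Function.update_of_ne hij]
        simp [Finset.mem_insert, hij]
  have := key Finset.univ
  simpa using this

end Pool.Agent.H53.RG
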