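import Pool.Agent.H53.RG.Comp
import Pool.Agent.H53.RG.DT
import Pool.Agent.H58.SF.Fin
import Pool.Agent.H21.SF.OS
import Pool.Agent.H21.SF.TK

/-!
# Graphs of finite chromatic number with a Ramsey group of automorphisms
-/

set_option autoImplicit false

namespace Pool.Agent.H53.RG

open Pool.Agent.H68.BP Pool.Agent.H58.SF

variable {V T : Type} {E : V → V → Prop} {R : T → T → Prop} {G : Subgroup (Equiv.Perm V)}
  {O : T → Set V}

/-- No Olšák homomorphism, without connectedness. -/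
theorem no_olsak_all (hol : Oligo (graph E)) (hs : ∀ x y, E x y → E y x) (hG : RamseyGroup G)
    (hE : ∀ g ∈ G, ∀ x y, E x y → E (g x) (g y)) (hT : ProjectiveCore R)
    (hO : OrbitCopy E G R O) {h : (Fin 6 → V) → T} (hh : Hom6 E R h) (ho : Ols h) : False := by
  obtain ⟨t₀⟩ : Nonempty T := by
    by_contra hcon
    rw [not_nonempty_iff] at hcon
    exact hT.nonbip ⟨fun t => isEmptyElim t, fun s => isEmptyElim s⟩
  obtain ⟨x₀, hx₀⟩ := hO.ne t₀
  have hGC := ramsey_comp hG hs hE x₀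
  have hOC := orbitCopy_comp hs hE hT hO hx₀
  have hEC := ce_inv (G := G) hE (x₀ := x₀)
  -- an odd closed walk in the component
  have hodd : OddWalk (CE E x₀) := by
    by_contra hcon
    exact not_two_colorable hGC hEC hT hOC
      (Pool.Agent.H53.SF.pf_NB _ (CE E x₀) (fun a b hab => hs _ _ hab) hcon)
  obtain ⟨n, w, hw, hper⟩ := hodd
  have hwalk : ∀ m k, Walk E m (w k).1 (w (k + m)).1 := by
    intro m
    induction m with
    | zero => exact fun k => rfl
    | succ m ih =>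
      intro k
      refine ⟨(w (k + 1)).1, hw k, ?_⟩
      have := ih (k + 1)
      rwa [show k + 1 + m = k + (m + 1) by omega] at this
  have hclosed : Walk E (2 * n + 1) (w 0).1 (w 0).1 := by
    have h1 := hwalk (2 * n + 1) 0
    rwa [hper] at h1
  obtain ⟨P, hP⟩ := hol 2
  obtain ⟨L, hL⟩ := uniform_walk hs ⟨P, fun x => by
    obtain ⟨y, hy, g, hg, hgy⟩ := hP x
    refine ⟨y, hy, g, fun a b => ?_, hgy⟩
    exact hg (0 : Fin 1) ![a, b]⟩ (m := 2 * n + 1) ⟨n, rfl⟩ hclosed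
  have hLC : ∀ x y : Cmp E x₀, Walk (CE E x₀) L x y := by
    intro x y
    have h0 : Relation.ReflTransGen E (w 0).1 x₀ := rtg_symm hs (w 0).2
    exact walk_comp (hL x.1 y.1 (h0.trans x.2) (h0.trans y.2)) x.2 y.2
  refine no_olsak hGC hEC hT hOC hLC (h := fun x => h (fun i => (x i).1)) ?_ ?_
  · intro x y hxy
    exact hh _ _ hxy
  · intro x y
    have key : ∀ a b c d e f : Cmp E x₀, (fun i => ((![a, b, c, d, e, f] : Fin 6 → Cmp E x₀) i).1)
        = ![a.1, b.1, c.1, d.1, e.1, f.1] := by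
      intro a b c d e f
      funext i
      fin_cases i <;> rfl
    simp only [key]
    exact ho x.1 y.1

/-- Compactness. -/
theorem olsak_compact [Finite T] [Nonempty T]
    (h : ∀ F : Finset V, HasOlsak (graph fun a b : F => E a.1 b.1) (graph R)) :
    ∃ h : (Fin 6 → V) → T, Hom6 E R h ∧ Ols h := by
  classical
  choose o ho hid using h
  let o' : Finset V → (Fin 6 → V) → T := fun F x =>
    if hx : ∀ i, x i ∈ F then o F (fun i => ⟨x i, hx i⟩) else Classical.arbitrary T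
  obtain ⟨h', spec⟩ : ∃ h' : (Fin 6 → V) → T, ∀ x : Fin 6 → V,
      ∀ᶠ F in ((cone V : Ultrafilter (Finset V)) : Filter (Finset V)), o' F x = h' x :=
    ⟨fun x => ulim (cone V) (fun F => o' F x), fun x => ulim_spec (cone V) (fun F => o' F x)⟩
  have ho' : ∀ F x (hx : ∀ i, x i ∈ F), o' F x = o F (fun i => ⟨x i, hx i⟩) := by
    intro F x hx
    simp only [o', dif_pos hx]
  refine ⟨h', ?_, ?_⟩
  · intro x y hxy
    obtain ⟨F, h1, h2, hF⟩ := ((spec x).and ((spec y).and
      (cone_mem (Finset.univ.image x ∪ Finset.univ.image y)))).exists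
    have hx : ∀ i, x i ∈ F := fun i => hF (Finset.mem_union_left _
      (Finset.mem_image_of_mem _ (Finset.mem_univ i)))
    have hy : ∀ i, y i ∈ F := fun i => hF (Finset.mem_union_right _
      (Finset.mem_image_of_mem _ (Finset.mem_univ i)))
    rw [← h1, ← h2, ho' F x hx, ho' F y hy]
    exact ho F (0 : Fin 1) (fun i => ![⟨x i, hx i⟩, ⟨y i, hy i⟩]) hxy
  · intro x y
    obtain ⟨F, h1, h2, h3, hF⟩ := ((spec ![x, x, y, y, y, x]).and
      ((spec ![x, y, x, y, x, y]).and ((spec ![y, x, x, x, y, y]).and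
        (cone_mem {x, y})))).exists
    have hx : x ∈ F := hF (by simp)
    have hy : y ∈ F := hF (by simp)
    obtain ⟨e1, e2⟩ := hid F ⟨x, hx⟩ ⟨y, hy⟩
    have key : ∀ (a b c d e f : F),
        o' F ![a.1, b.1, c.1, d.1, e.1, f.1] = o F ![a, b, c, d, e, f] := by
      intro a b c d e f
      rw [ho' F _ (by intro i; fin_cases i <;> simp)]
      congr 1
      funext i
      fin_cases i <;> rfl
    have k1 := key ⟨x, hx⟩ ⟨x, hx⟩ ⟨y, hy⟩ ⟨y, hy⟩ ⟨y, hy⟩ ⟨x, hx⟩
    have k2 := key ⟨x, hx⟩ ⟨y, hy⟩ ⟨x, hx⟩ ⟨y, hy⟩ ⟨x, hx⟩ ⟨y, hy⟩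
    have k3 := key ⟨y, hy⟩ ⟨x, hx⟩ ⟨x, hx⟩ ⟨x, hx⟩ ⟨y, hy⟩ ⟨y, hy⟩
    dsimp only at k1 k2 k3
    rw [← h1, ← h2, ← h3, k1, k2, k3]
    exact ⟨e1, e2⟩

/-- THEOREM X, general form. -/
theorem ramsey_K3 (hV : Countable V) (hol : Oligo (graph E)) (hs : ∀ x y, E x y → E y x)
    (hG : RamseyGroup G) (hE : ∀ g ∈ G, ∀ x y, E x y → E (g x) (g y)) (hT : ProjectiveCore R)
    (hO : OrbitCopy E G R O) {c : V → T} (hc : ∀ x y, E x y → R (c x) (c y)) :
    PPConstructsK3 (graph E) := by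
  classical
  have := hT.fin
  have hne : Nonempty T := by
    by_contra hcon
    rw [not_nonempty_iff] at hcon
    exact hT.nonbip ⟨fun t => isEmptyElim t, fun s => isEmptyElim s⟩
  by_contra hK
  have h : ∀ F : Finset V, HasOlsak (graph fun a b : F => E a.1 b.1) (graph R) := by
    intro F
    by_contra hcon
    apply hK
    refine criterion (Pool.Agent.H21.SF.pf_OS Pool.Agent.H21.SF.pf_TK)
      (𝕊 := graph fun a b : F => E a.1 b.1) (𝕋 := graph R) inferInstance hV hol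
      ⟨Subtype.val, fun _ _ hx => hx⟩ ⟨c, fun _ _ hx => hc _ _ hx⟩ (Or.inr (Or.inr ⟨this, hcon⟩))
  obtain ⟨h, hh, ho⟩ := olsak_compact h
  exact no_olsak_all hol hs hG hE hT hO hh ho

/-- THEOREM X for complete graphs. -/
theorem ramsey_K3_colorable (hV : Countable V) (hol : Oligo (graph E))
    (hs : ∀ x y, E x y → E y x) (hG : RamseyGroup G)
    (hE : ∀ g ∈ G, ∀ x y, E x y → E (g x) (g y)) {c : ℕ} (hc : 3 ≤ c) (hcol : Colorable E c)
    {O : Fin c → Set V} (hO : OrbitCopy E G (fun i j : Fin c => i ≠ j) O) :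
    PPConstructsK3 (graph E) := by
  obtain ⟨κ, hκ⟩ := hcol
  exact ramsey_K3 hV hol hs hG hE (projectiveCore_complete hc) hO (c := κ) hκ

end Pool.Agent.H53.RG
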