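import Pool.Agent.H53.RG.Inv

/-!
# The tree argument
-/

set_option autoImplicit false

namespace Pool.Agent.H53.RG

variable {V T : Type} {E : V → V → Prop} {R : T → T → Prop} {G : Subgroup (Equiv.Perm V)}
  {O : T → Set V}

theorem ProjectiveCore.stiff (hT : ProjectiveCore R) {a b : T} (h : ∀ t, R a t → R b t) :
    a = b := by
  classical
  by_contra hne
  have hf : ∀ x y : Fin 6 → T, (∀ i, R (x i) (y i)) →
      R (if x 0 = a then b else x 0) (if y 0 = a then b else y 0) := by
    intro x y hxy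
    have h0 := hxy 0
    by_cases hx : x 0 = a
    · by_cases hy : y 0 = a
      · rw [hx, hy] at h0
        exact absurd h0 (hT.irr a)
      · rw [if_pos hx, if_neg hy]
        rw [hx] at h0
        exact h _ h0
    · by_cases hy : y 0 = a
      · rw [if_neg hx, if_pos hy]
        rw [hy] at h0
        exact hT.symm _ _ (h _ (hT.symm _ _ h0))
      · rw [if_neg hx, if_neg hy]
        exact h0
  obtain ⟨i, α, _, hα⟩ := hT.proj _ hf
  have h1 := hα fun _ => a
  have h2 := hα fun _ => b
  simp only [if_true] at h1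
  have h3 : (if b = a then b else b) = b := by simp
  rw [h3] at h2
  exact hne (α.injective (h1.symm.trans h2))

theorem walk_fun {n : ℕ} {x y : V} (h : Walk E n x y) :
    ∃ p : ℕ → V, p 0 = x ∧ p n = y ∧ ∀ k < n, E (p k) (p (k + 1)) := by
  induction n generalizing x with
  | zero => exact ⟨fun _ => x, rfl, h, fun k hk => absurd hk (Nat.not_lt_zero k)⟩
  | succ n ih =>
    obtain ⟨z, hz, hw⟩ := h
    obtain ⟨p, h0, hn, hp⟩ := ih hw
    refine ⟨fun k => Nat.casesOn k x p, rfl, hn, fun k hk => ?_⟩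
    cases k with
    | zero =>
      show E x (p 0)
      rw [h0]
      exact hz
    | succ k => exact hp k (by omega)

/-- The nodes of the label tree. -/
def Nodes (R : T → T → Prop) (nb : T → V → V) (p₀ : V × T) : ℕ → Set (V × T)
  | 0 => {p₀}
  | k + 1 => {q | ∃ p ∈ Nodes R nb p₀ k, R p.2 q.2 ∧ q.1 = nb q.2 p.1}

theorem finite_nodes [Finite T] (nb : T → V → V) (p₀ : V × T) (k : ℕ) :
    (Nodes R nb p₀ k).Finite := by
  induction k with
  | zero => exact Set.finite_singleton _
  | succ k ih =>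
    refine ((ih.prod (Set.finite_univ (α := T))).image fun r => (nb r.2 r.1.1, r.2)).subset ?_
    rintro ⟨v, t⟩ ⟨p, hp, _, hv⟩
    exact ⟨(p, t), ⟨hp, Set.mem_univ _⟩, by simp only at hv; rw [hv]⟩

theorem mem_orbit_of_nodes {nb : T → V → V}
    (hnb : ∀ s t x, R s t → x ∈ O s → nb t x ∈ O t ∧ E x (nb t x)) {p₀ : V × T}
    (h₀ : p₀.1 ∈ O p₀.2) (k : ℕ) : ∀ q ∈ Nodes R nb p₀ k, q.1 ∈ O q.2 := by
  induction k with
  | zero =>
    intro q hq
    rw [show q = p₀ from hq]
    exact h₀
  | succ k ih =>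
    rintro q ⟨p, hp, hR, hq⟩
    rw [hq]
    exact (hnb _ _ _ hR (ih p hp)).1

theorem OrbitCopy.exists_nb (hO : OrbitCopy E G R O)
    (hE : ∀ g ∈ G, ∀ x y, E x y → E (g x) (g y)) :
    ∃ nb : T → V → V, ∀ s t x, R s t → x ∈ O s → nb t x ∈ O t ∧ E x (nb t x) := by
  classical
  have h : ∀ s t x, R s t → x ∈ O s → ∃ y ∈ O t, E x y := by
    intro s t x hR hx
    obtain ⟨a, ha, b, hb, hab⟩ := hO.adj s t hR
    obtain ⟨γ, hγ, rfl⟩ := hO.trans s a ha x hx
    exact ⟨γ b, hO.inv t b hb γ hγ, hE γ hγ _ _ hab⟩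
  refine ⟨fun t x => if h : ∃ y ∈ O t, E x y then h.choose else x, fun s t x hR hx => ?_⟩
  have h1 := h s t x hR hx
  simp only [dif_pos h1]
  exact h1.choose_spec

/-- An invariant homomorphism depends only on the orbit of one coordinate. -/
theorem dictator_of_invariant (hG : RamseyGroup G)
    (hE : ∀ g ∈ G, ∀ x y, E x y → E (g x) (g y)) (hT : ProjectiveCore R)
    (hO : OrbitCopy E G R O) {L : ℕ} (hL : ∀ x y, Walk E L x y)
    {h : (Fin 6 → V) → T} (hh : Hom6 E R h) (hinv : ∀ γ ∈ G, ∀ x, h (fun i => γ (x i)) = h x) :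
    ∃ (i : Fin 6) (α : T ≃ T), ∀ (x : Fin 6 → V) (s : T), x i ∈ O s → h x = α s := by
  classical
  have := hT.fin
  obtain ⟨H, hH⟩ := exists_part hG hE hh Finset.univ
  choose rep hrep using hO.ne
  have hHrep : ∀ (t : Fin 6 → T) (x : Fin 6 → V), (∀ j, x j ∈ O (t j)) →
      H x = H (fun j => rep (t j)) := fun t x hx =>
    hH.full fun j => hO.trans (t j) _ (hrep (t j)) _ (hx j)
  obtain ⟨i, α, hα, hψ⟩ := hT.proj (fun t => H (fun j => rep (t j))) (by
    intro s t hst
    choose a ha b hb hab using fun j => hO.adj _ _ (hst j)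
    rw [← hHrep s a ha, ← hHrep t b hb]
    exact hH.hom _ _ hab)
  obtain ⟨nb, hnb⟩ := hO.exists_nb hE
  refine ⟨i, α, fun x₀ s₀ hx₀ => ?_⟩
  -- the finite set of all nodes
  have hfin : (⋃ k ∈ Set.Iic L, Prod.fst '' Nodes R nb (x₀ i, s₀) k).Finite :=
    (Set.finite_Iic L).biUnion fun k _ => (finite_nodes nb _ k).image _
  obtain ⟨g, hg, hclose⟩ := hH.close hfin.toFinset
  have hmemF : ∀ k ≤ L, ∀ q ∈ Nodes R nb (x₀ i, s₀) k, q.1 ∈ hfin.toFinset := by
    intro k hk q hq
    rw [Set.Finite.mem_toFinset]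
    exact Set.mem_biUnion (show k ∈ Set.Iic L from hk) ⟨q, hq, rfl⟩
  have hx₀F : x₀ i ∈ hfin.toFinset := hmemF 0 (Nat.zero_le _) (x₀ i, s₀) rfl
  choose p hp0 hpL hp using fun j => walk_fun (hL (x₀ j) ((g i)⁻¹ (g j (x₀ i))))
  have claim : ∀ m k, k + m = L → ∀ q ∈ Nodes R nb (x₀ i, s₀) k,
      h (Function.update (fun j => p j k) i q.1) = α q.2 := by
    intro m
    induction m with
    | zero =>
      intro k hk q hq
      have hk' : k = L := hk
      subst hk'
      have h1 : h (Function.update (fun j => p j k) i q.1) =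
          h (fun j => g j (Function.update (fun _ => x₀ i) i q.1 j)) := by
        rw [← hinv (g i) (hg i)]
        congr 1
        funext j
        by_cases hj : j = i
        · subst hj
          rw [Function.update_self, Function.update_self]
        · rw [Function.update_of_ne hj, Function.update_of_ne hj, hpL]
          simp
      have h2 : ∀ j, Function.update (fun _ => x₀ i) i q.1 j ∈ hfin.toFinset := by
        intro j
        by_cases hj : j = i
        · subst hj
          rw [Function.update_self]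
          exact hmemF k le_rfl q hq
        · rw [Function.update_of_ne hj]
          exact hx₀F
      rw [h1, ← hclose _ h2, hHrep (Function.update (fun _ => s₀) i q.2), hψ,
        Function.update_self]
      intro j
      by_cases hj : j = i
      · subst hj
        rw [Function.update_self, Function.update_self]
        exact mem_orbit_of_nodes hnb (p₀ := (x₀ j, s₀)) hx₀ k q hq
      · rw [Function.update_of_ne hj, Function.update_of_ne hj]
        exact hx₀
    | succ m ih =>
      intro k hk q hq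
      have hq' := mem_orbit_of_nodes hnb (p₀ := (x₀ i, s₀)) hx₀ k q hq
      refine (hT.stiff fun u hu => ?_).symm
      have hR : R q.2 (α.symm u) := by
        rw [hα, Equiv.apply_symm_apply]
        exact hu
      have h1 := ih (k + 1) (by omega) (nb (α.symm u) q.1, α.symm u) ⟨q, hq, hR, rfl⟩
      rw [Equiv.apply_symm_apply] at h1
      rw [← h1]
      refine hh _ _ fun j => ?_
      by_cases hj : j = i
      · subst hj
        rw [Function.update_self, Function.update_self]
        exact (hnb _ _ _ hR hq').2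
      · rw [Function.update_of_ne hj, Function.update_of_ne hj]
        exact hp j k (by omega)
  have h3 := claim L 0 (Nat.zero_add L) (x₀ i, s₀) rfl
  have h4 : Function.update (fun j => p j 0) i (x₀ i, s₀).1 = x₀ := by
    funext j
    by_cases hj : j = i
    · subst hj
      rw [Function.update_self]
    · rw [Function.update_of_ne hj, hp0]
  rw [h4] at h3
  exact h3

/-- There is no Olšák homomorphism. -/
theorem no_olsak (hG : RamseyGroup G)
    (hE : ∀ g ∈ G, ∀ x y, E x y → E (g x) (g y)) (hT : ProjectiveCore R)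
    (hO : OrbitCopy E G R O) {L : ℕ} (hL : ∀ x y, Walk E L x y)
    {h : (Fin 6 → V) → T} (hh : Hom6 E R h) (ho : Ols h) : False := by
  have := hT.fin
  obtain ⟨h', hh', ho', hinv⟩ := exists_invariant hG hE hh ho
  obtain ⟨i, α, hα⟩ := dictator_of_invariant hG hE hT hO hL hh' hinv
  obtain ⟨s, t, hst⟩ : ∃ s t : T, R s t := by
    by_contra hcon
    push Not at hcon
    exact hT.nonbip ⟨fun _ => true, fun s t h => absurd h (hcon s t)⟩
  have hne : s ≠ t := by
    rintro rfl
    exact hT.irr s hst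
  obtain ⟨x, hx⟩ := hO.ne s
  obtain ⟨y, hy⟩ := hO.ne t
  obtain ⟨e1, e2⟩ := ho' x y
  have h1 := hα ![x, x, y, y, y, x]
  have h2 := hα ![x, y, x, y, x, y]
  have h3 := hα ![y, x, x, x, y, y]
  apply hne
  apply α.injective
  fin_cases i
  · rw [← h2 s hx, ← h3 t hy, e2]
  · rw [← h1 s hx, ← h2 t hy, e1]
  · rw [← h2 s hx, ← h1 t hy, e1]
  · rw [← h3 s hx, ← h2 t hy, e2]
  · rw [← h2 s hx, ← h1 t hy, e1]
  · rw [← h1 s hx, ← h2 t hy, e1]

end Pool.Agent.H53.RG
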